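import Mathlib

open MeasureTheory Set Real

namespace Pool.Agent.Results.MP_57e339_an.MeanFlow

variable {d : ℕ}

/-- `2π`-periodicity in every coordinate: functions on the torus. -/
def Per {α : Type} (f : (Fin d → ℝ) → α) : Prop :=
  ∀ x j, f (x + Pi.single j (2 * π)) = f x

/-- Lebesgue measure on the period cell `[0,2π]^d`. -/
noncomputable def cell (d : ℕ) : Measure (Fin d → ℝ) :=
  volume.restrict (Icc (0 : Fin d → ℝ) (fun _ => 2 * π))

/-- Derivative in the direction of the `j`-th coordinate. -/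
noncomputable def D (j : Fin d) (ψ : (Fin d → ℝ) → ℝ) (x : Fin d → ℝ) : ℝ :=
  fderiv ℝ ψ x (Pi.single j 1)

/-- Smooth periodic test functions. -/
def Test (ψ : (Fin d → ℝ) → ℝ) : Prop := ContDiff ℝ (⊤ : ℕ∞) ψ ∧ Per ψ

/-- Periodic square integrable fields, divergence free in the sense of distributions. -/
def H (u : (Fin d → ℝ) → Fin d → ℝ) : Prop :=
  Per u ∧ MemLp u 2 (cell d) ∧ ∀ ψ, Test ψ → ∫ x, ∑ i, u x i * D i ψ x ∂cell d = 0

/-- The state space: divergence free fields of class `H¹`. -/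
def V (u : (Fin d → ℝ) → Fin d → ℝ) : Prop :=
  H u ∧ ∃ G : Fin d → Fin d → (Fin d → ℝ) → ℝ, ∀ i j, MemLp (G i j) 2 (cell d) ∧
    ∀ ψ, Test ψ → ∫ x, u x i * D j ψ x ∂cell d = -∫ x, G i j x * ψ x ∂cell d

/-- Fields of `V` supported in the closure of `Ω`. -/
def VD (Ω : Set (Fin d → ℝ)) (u : (Fin d → ℝ) → Fin d → ℝ) : Prop :=
  V u ∧ ∀ᵐ x ∂cell d, x ∉ closure Ω → u x = 0

/-- Weak solutions of the Navier-Stokes system on `[0,T]` with force `η`. -/
def Sol (ν T : ℝ) (η u : ℝ → (Fin d → ℝ) → Fin d → ℝ) : Prop :=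
  (∀ t ∈ Icc 0 T, H (u t)) ∧
  ∀ φ : Fin d → (Fin d → ℝ) → ℝ, (∀ i, Test (φ i)) → (∀ x, ∑ i, D i (φ i) x = 0) →
    ∀ t ∈ Icc 0 T, ∫ x, ∑ i, u t x i * φ i x ∂cell d =
      ∫ x, ∑ i, u 0 x i * φ i x ∂cell d + ∫ s in (0 : ℝ)..t,
        ∫ x, ∑ i, (∑ j, (u s x i * u s x j * D j (φ i) x + ν * u s x i * D j (D j (φ i)) x)
          + η s x i * φ i x) ∂cell d

/-- `η` takes values in `E`, is bounded, and drives a solution from `u₀` to `w` in time `T`. -/
def Steer (ν : ℝ) (E : Submodule ℝ ((Fin d → ℝ) → Fin d → ℝ)) (T : ℝ)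
    (u₀ w : (Fin d → ℝ) → Fin d → ℝ) : Prop :=
  ∃ η u : ℝ → (Fin d → ℝ) → Fin d → ℝ, (∀ t ∈ Icc 0 T, η t ∈ E) ∧
    (∃ C : ℝ, ∀ t ∈ Icc 0 T, ∫ x, ∑ i, η t x i ^ 2 ∂cell d ≤ C) ∧
    Sol ν T η u ∧ u 0 = u₀ ∧ u T = w

def Approx (ν : ℝ) (E : Submodule ℝ ((Fin d → ℝ) → Fin d → ℝ)) : Prop :=
  ∀ u₀ u₁, V u₀ → V u₁ → ∀ T > 0, ∀ ε > 0, ∃ w, Steer ν E T u₀ w ∧
    √(∫ x, ∑ i, (w x i - u₁ x i) ^ 2 ∂cell d) < ε

def Proj (ν : ℝ) (E : Submodule ℝ ((Fin d → ℝ) → Fin d → ℝ)) : Prop :=
  ∀ u₀ u₁, V u₀ → V u₁ → ∀ T > 0, ∀ F : Submodule ℝ ((Fin d → ℝ) → Fin d → ℝ),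
    FiniteDimensional ℝ F → (∀ f ∈ F, V f) → ∃ w, Steer ν E T u₀ w ∧
      ∀ f ∈ F, ∫ x, ∑ i, (w x i - u₁ x i) * f x i ∂cell d = 0

instance : IsFiniteMeasure (cell d) := by
  unfold cell
  exact isFiniteMeasure_restrict.2 isCompact_Icc.measure_lt_top.ne

lemma cell_pos : 0 < (cell d).real univ := by
  unfold cell
  rw [measureReal_restrict_apply MeasurableSet.univ, univ_inter, Measure.real,
    Real.volume_Icc_pi_toReal (fun _ => by simp; positivity)]
  exact Finset.prod_pos fun _ _ => by simp; positivity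

lemma int_D {n : ℕ} (j : Fin (n + 1)) (ψ : (Fin (n + 1) → ℝ) → ℝ) (h : Test ψ) :
    ∫ x, D j ψ x ∂cell (n + 1) = 0 := by
  have hd : Differentiable ℝ ψ := h.1.differentiable (by simp)
  have hc : Continuous (fderiv ℝ ψ) := h.1.continuous_fderiv (by simp)
  have key := integral_divergence_of_hasFDerivAt_off_countable' (0 : Fin (n + 1) → ℝ)
    (fun _ => 2 * π) (fun _ => by simp; positivity)
    (fun i x => if i = j then ψ x else 0) (fun i x => if i = j then fderiv ℝ ψ x else 0) ∅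
    countable_empty (fun i => by
      by_cases hi : i = j
      · simp only [hi, if_true]; exact hd.continuous.continuousOn
      · simp only [hi, if_false]; exact continuousOn_const)
    (fun x _ i => by
      by_cases hi : i = j
      · simp only [hi, if_true]; exact (hd x).hasFDerivAt
      · simp only [hi, if_false]; exact hasFDerivAt_const _ _)
    (by
      apply Continuous.integrableOn_Icc
      apply continuous_finsetSum
      intro i _
      by_cases hi : i = j
      · simp only [hi, if_true]; exact hc.clm_apply continuous_const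
      · simp only [hi, if_false]; exact continuous_const)
  have e1 : ∀ x : Fin (n + 1) → ℝ, ∑ i, (if i = j then fderiv ℝ ψ x else 0) (Pi.single i 1)
      = D j ψ x := by
    intro x
    rw [Finset.sum_eq_single j]
    · simp [D]
    · intro i _ hi; simp [hi]
    · simp
  simp only [e1] at key
  unfold cell
  rw [key]
  apply Finset.sum_eq_zero
  intro i _
  by_cases hi : i = j
  · subst hi
    simp only [if_true]
    rw [sub_eq_zero]
    congr 1
    funext x
    rw [← h.2 (i.insertNth ((0 : Fin (n + 1) → ℝ) i) x) i]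
    congr 1
    funext k
    rcases Fin.eq_self_or_eq_succAbove i k with rfl | ⟨k, rfl⟩
    · simp
    · simp [Fin.succAbove_ne]
  · simp [hi]

lemma V_const {n : ℕ} (c : Fin (n + 1) → ℝ) : V (fun _ : Fin (n + 1) → ℝ => c) := by
  refine ⟨⟨fun _ _ => rfl, memLp_const _, fun ψ h => ?_⟩, fun _ _ _ => 0, fun i j =>
    ⟨memLp_const _, fun ψ h => ?_⟩⟩
  · rw [integral_finsetSum]
    · apply Finset.sum_eq_zero
      intro i _
      rw [integral_const_mul, int_D i ψ h, mul_zero]
    · intro i _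
      have hc : Continuous (fderiv ℝ ψ) := h.1.continuous_fderiv (by simp)
      have : Continuous fun x => c i * D i ψ x :=
        continuous_const.mul (hc.clm_apply continuous_const)
      exact this.integrableOn_Icc
  · rw [integral_const_mul, int_D j ψ h]; simp

/-- A smooth periodic function of slope one where `cos s < -1/2`. -/
noncomputable def g (s : ℝ) : ℝ := smoothTransition (-4 * cos s - 1) * arctan (tan s)

lemma g_smooth : ContDiff ℝ (⊤ : ℕ∞) g := by
  rw [contDiff_iff_contDiffAt]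
  intro s
  by_cases h : cos s = 0
  · have : g =ᶠ[nhds s] fun _ => 0 := by
      have ho : IsOpen {t : ℝ | -1 / 4 < cos t} := isOpen_lt continuous_const continuous_cos
      filter_upwards [ho.mem_nhds (show s ∈ _ by simp [h]; norm_num)] with t ht
      have ht' : -1 / 4 < cos t := ht
      unfold g
      rw [smoothTransition.zero_of_nonpos (by linarith), zero_mul]
    exact contDiffAt_const.congr_of_eventuallyEq this
  · unfold g
    apply ContDiffAt.mul
    · exact (smoothTransition.contDiff.comp (by fun_prop)).contDiffAt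
    · exact contDiff_arctan.contDiffAt.comp s (contDiffAt_tan.2 h)

lemma g_deriv {s : ℝ} (h : cos s < -1 / 2) : HasDerivAt g 1 s := by
  have h0 : cos s ≠ 0 := by linarith
  have h1 := (hasDerivAt_arctan (tan s)).comp s (hasDerivAt_tan h0)
  have e : 1 / (1 + tan s ^ 2) * (1 / cos s ^ 2) = 1 := by
    rw [one_div, inv_one_add_tan_sq h0]; field_simp
  rw [e] at h1
  apply h1.congr_of_eventuallyEq
  have ho : IsOpen {t : ℝ | cos t < -1 / 2} := isOpen_lt continuous_cos continuous_const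
  filter_upwards [ho.mem_nhds h] with t ht
  have ht' : cos t < -1 / 2 := ht
  unfold g
  rw [smoothTransition.one_of_one_le (by linarith), one_mul]
  rfl

lemma g_per (s : ℝ) : g (s + 2 * π) = g s := by
  unfold g
  rw [cos_add_two_pi, tan_eq_sin_div_cos, tan_eq_sin_div_cos, cos_add_two_pi, sin_add_two_pi]

lemma mean_zero {n : ℕ} (Ω : Set (Fin (n + 1) → ℝ)) (hΩ : ∀ x ∈ Ω, cos (x 0) < -3 / 4)
    (η : (Fin (n + 1) → ℝ) → Fin (n + 1) → ℝ) (h : VD Ω η) :
    ∫ x, η x 0 ∂cell (n + 1) = 0 := by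
  have ht : Test (fun x : Fin (n + 1) → ℝ => g (x 0)) := by
    refine ⟨g_smooth.comp (contDiff_apply ℝ ℝ 0), fun x j => ?_⟩
    by_cases hj : j = 0
    · subst hj; simp [g_per]
    · simp [Pi.single_eq_of_ne' hj]
  rw [← h.1.1.2.2 _ ht]
  apply integral_congr_ae
  filter_upwards [h.2] with x hx
  by_cases hc : x ∈ closure Ω
  · have h1 : cos (x 0) ≤ -3 / 4 := by
      have : closure Ω ⊆ {x | cos (x 0) ≤ -3 / 4} :=
        closure_minimal (fun x hx => (hΩ x hx).le)
          (isClosed_le (by fun_prop) continuous_const)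
      exact this hc
    have h2 := (g_deriv (s := x 0) (by linarith)).comp_hasFDerivAt x
      (hasFDerivAt_apply (𝕜 := ℝ) (0 : Fin (n + 1)) x)
    have h3 : ∀ i, D i (fun x : Fin (n + 1) → ℝ => g (x 0)) x = if i = 0 then 1 else 0 := by
      intro i
      unfold D
      rw [show (fun x : Fin (n + 1) → ℝ => g (x 0)) = g ∘ fun x => x 0 from rfl, h2.fderiv]
      by_cases hi : i = 0
      · simp [hi]
      · simp [hi]
    simp [h3]
  · simp [hx hc]

lemma conserved {n : ℕ} (Ω : Set (Fin (n + 1) → ℝ)) (hΩ : ∀ x ∈ Ω, cos (x 0) < -3 / 4)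
    (ν T : ℝ) (hT : 0 < T) (E : Submodule ℝ ((Fin (n + 1) → ℝ) → Fin (n + 1) → ℝ))
    (hE : ∀ f ∈ E, VD Ω f) (w : (Fin (n + 1) → ℝ) → Fin (n + 1) → ℝ)
    (h : Steer ν E T (fun _ => 0) w) :
    MemLp w 2 (cell (n + 1)) ∧ ∫ x, w x 0 ∂cell (n + 1) = 0 := by
  obtain ⟨η, u, hη, -, ⟨hH, hS⟩, h0, h1⟩ := h
  have hT' : T ∈ Icc 0 T := ⟨hT.le, le_rfl⟩
  refine ⟨h1 ▸ (hH T hT').2.1, ?_⟩
  have hD : ∀ (j : Fin (n + 1)) (c : ℝ), D j (fun _ => c) = fun _ => 0 := by
    intro j c; funext x; simp [D]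
  have := hS (fun i _ => if i = 0 then 1 else 0)
    (fun i => ⟨contDiff_const, fun _ _ => rfl⟩) (by simp [hD]) T hT'
  simp only [hD, h0, h1] at this
  simp only [mul_ite, mul_one, mul_zero, Finset.sum_ite_eq', Finset.mem_univ, if_true,
    add_zero, Finset.sum_const_zero, zero_add, Pi.zero_apply, integral_zero] at this
  rw [this, intervalIntegral.integral_congr (g := fun _ => 0)]
  · simp
  · intro s hs
    rw [uIcc_of_le hT.le] at hs
    exact mean_zero Ω hΩ _ (hE _ (hη s hs))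

theorem result (d : ℕ) (hd : d = 2 ∨ d = 3) :
    ∃ Ω : Set (Fin d → ℝ), IsOpen Ω ∧ Ω.Nonempty ∧ Per (fun x => x ∈ Ω) ∧
      ∀ E : Submodule ℝ ((Fin d → ℝ) → Fin d → ℝ), (∀ f ∈ E, VD Ω f) →
        ∀ ν > 0, ¬ Approx ν E ∧ ¬ Proj ν E := by
  obtain ⟨n, rfl⟩ : ∃ n, d = n + 1 := ⟨d - 1, by omega⟩
  refine ⟨{x | cos (x 0) < -3 / 4}, isOpen_lt (by fun_prop) continuous_const,
    ⟨fun _ => π, by simp; norm_num⟩, fun x j => ?_, fun E hE ν _ => ⟨fun h => ?_, fun h => ?_⟩⟩
  · by_cases hj : j = 0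
    · subst hj; simp
    · simp [Pi.single_eq_of_ne' hj]
  · have hp := cell_pos (d := n + 1)
    set m := (cell (n + 1)).real univ with hm
    obtain ⟨w, hw, hlt⟩ := h (fun _ => 0) (fun _ => Pi.single 0 1) (V_const _) (V_const _) 1
      one_pos (√m) (sqrt_pos.2 hp)
    obtain ⟨hL, h0⟩ := conserved _ (fun x hx => hx) ν 1 one_pos E hE w hw
    have hlt' := (sqrt_lt_sqrt_iff_of_pos hp).1 hlt
    have hi : ∀ i, MemLp (fun x => w x i) 2 (cell (n + 1)) := fun i => (memLp_pi_iff.1 hL) i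
    have hi2 : ∀ i, Integrable (fun x => (w x i - (Pi.single 0 1 : Fin (n + 1) → ℝ) i) ^ 2)
        (cell (n + 1)) := fun i => ((hi i).sub (memLp_const _)).integrable_sq
    have hle : ∫ x, (1 - 2 * w x 0) ∂cell (n + 1) ≤
        ∫ x, ∑ i, (w x i - (Pi.single 0 1 : Fin (n + 1) → ℝ) i) ^ 2 ∂cell (n + 1) := by
      apply integral_mono
      · exact (integrable_const _).sub (((hi 0).integrable (by norm_num)).const_mul _)
      · exact integrable_finsetSum _ fun i _ => hi2 i
      · intro x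
        have := Finset.single_le_sum
          (f := fun i => (w x i - (Pi.single 0 1 : Fin (n + 1) → ℝ) i) ^ 2)
          (fun i _ => sq_nonneg _) (Finset.mem_univ 0)
        simp only [Pi.single_eq_same] at this
        simp only
        nlinarith [sq_nonneg (w x 0)]
    rw [integral_sub (integrable_const _) (((hi 0).integrable (by norm_num)).const_mul _),
      integral_const_mul, h0, integral_const] at hle
    simp only [smul_eq_mul, mul_one, mul_zero, sub_zero] at hle
    linarith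
  · have hp := cell_pos (d := n + 1)
    obtain ⟨w, hw, hF⟩ := h (fun _ => 0) (fun _ => Pi.single 0 1) (V_const _) (V_const _) 1
      one_pos (Submodule.span ℝ {fun _ => Pi.single 0 1}) inferInstance (by
        intro f hf
        obtain ⟨c, rfl⟩ := Submodule.mem_span_singleton.1 hf
        exact V_const (c • Pi.single 0 1))
    obtain ⟨hL, h0⟩ := conserved _ (fun x hx => hx) ν 1 one_pos E hE w hw
    have h1 := hF _ (Submodule.mem_span_singleton_self _)
    have e : ∀ x, ∑ i, (w x i - (Pi.single 0 1 : Fin (n + 1) → ℝ) i) *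
        (Pi.single 0 1 : Fin (n + 1) → ℝ) i = w x 0 - 1 := by
      intro x
      rw [Finset.sum_eq_single 0]
      · simp
      · intro i _ hi; simp [hi]
      · simp
    simp only [e] at h1
    rw [integral_sub (((memLp_pi_iff.1 hL) 0).integrable (by norm_num)) (integrable_const _),
      h0, integral_const] at h1
    simp only [smul_eq_mul, mul_one] at h1
    linarith

end Pool.Agent.Results.MP_57e339_an.MeanFlow
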